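import Pool.Agent.H68.L.R_pool_sql_team_seeded_3997aac3.Q44.TI.Prim
import Pool.Agent.H68.L.R_seed8.Y809.BSD14.Selb
import Pool.Agent.H68.L.R_seed8.Z894.LG
import Pool.Agent.H68.L.R_seed8.Z864.LQ.Lq

/-!
# Local classes of the points of `y² = x³ + A x² + B x`
-/

set_option autoImplicit false

open scoped Classical

namespace Q44.TI

open Pool.Agent.Y700 (PC)
open Pool.Agent.Z702 (LocI)
open Pool.Agent.Y814.BSD14 Pool.Agent.Y809.BSD14

/-- `z` is, up to squares, the abscissa of a point over `F` of `y² = x³ + A x² + B x` -/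
def Loc (F : Type) [Field F] (A B z : ℤ) : Prop :=
  ∃ x y r : F, x ≠ 0 ∧ y ^ 2 = x ^ 3 + (A : F) * x ^ 2 + (B : F) * x ∧ x = (z : F) * r ^ 2

section general

variable {F : Type} [Field F]

theorem Loc_iff [CharZero F] {A B z : ℤ} : Loc F A B z ↔ LocI F (-2 * A) (A ^ 2 - 4 * B) z := by
  have h4 : (4 : F) ≠ 0 := by norm_num
  constructor
  · rintro ⟨x, y, r, h1, h2, h3⟩
    refine ⟨4 * x, 8 * y, 2 * r, mul_ne_zero h4 h1, ?_, ?_⟩
    · push_cast
      linear_combination 64 * h2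
    · rw [h3]
      ring
  · rintro ⟨x, y, r, h1, h2, h3⟩
    refine ⟨x / 4, y / 8, r / 2, div_ne_zero h1 h4, ?_, ?_⟩
    · push_cast at h2
      field_simp
      linear_combination 64 * h2
    · rw [h3]
      field_simp
      norm_num

/-- multiplication by a square -/
theorem Loc_mul_sq {A B u d : ℤ} (hd : IsSquare (d : F)) (h0 : (d : F) ≠ 0) :
    Loc F A B (u * d) ↔ Loc F A B u := by
  obtain ⟨s, hs⟩ := hd
  have hs0 : s ≠ 0 := by
    rintro rfl
    apply h0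
    rw [hs, zero_mul]
  constructor
  · rintro ⟨x, y, r, h1, h2, h3⟩
    refine ⟨x, y, s * r, h1, h2, ?_⟩
    rw [h3]
    push_cast
    rw [hs]
    ring
  · rintro ⟨x, y, r, h1, h2, h3⟩
    refine ⟨x, y, r / s, h1, h2, ?_⟩
    push_cast
    rw [h3, hs]
    field_simp

/-- twists by squares -/
theorem Loc_sq {A B z k : ℤ} (hk : (k : F) ≠ 0) :
    Loc F (A * k ^ 2) (B * k ^ 4) z ↔ Loc F A B z := by
  constructor
  · rintro ⟨x, y, r, h1, h2, h3⟩
    refine ⟨x / k ^ 2, y / k ^ 3, r / k, div_ne_zero h1 (pow_ne_zero 2 hk), ?_, ?_⟩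
    · push_cast at h2
      field_simp
      linear_combination h2
    · rw [h3]
      field_simp
  · rintro ⟨x, y, r, h1, h2, h3⟩
    refine ⟨k ^ 2 * x, k ^ 3 * y, k * r, mul_ne_zero (pow_ne_zero 2 hk) h1, ?_, ?_⟩
    · push_cast
      linear_combination (k : F) ^ 6 * h2
    · rw [h3]
      ring

/-- twists by squares -/
theorem Loc_sq' {a b D z k : ℤ} (hk : (k : F) ≠ 0) :
    Loc F (a * (D * k ^ 2)) (b * (D * k ^ 2) ^ 2) z ↔ Loc F (a * D) (b * D ^ 2) z := by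
  rw [← Loc_sq (A := a * D) (B := b * D ^ 2) hk]
  have e1 : a * (D * k ^ 2) = a * D * k ^ 2 := by ring
  have e2 : b * (D * k ^ 2) ^ 2 = b * D ^ 2 * k ^ 4 := by ring
  rw [e1, e2]

end general

/-- squares near one -/
theorem near (p : ℕ) [hp : Fact p.Prime] (c : ℚ_[p]) : ∃ k0 : ℕ, ∀ k ≥ k0, ∃ v : ℚ_[p], v ≠ 0 ∧
    v ^ 2 = 1 + c * ((p : ℚ_[p]) ^ k) ^ 2 := by
  have hp1 : (1 : ℝ) < p := by exact_mod_cast hp.out.one_lt
  obtain ⟨k0, hk0⟩ := pow_unbounded_of_one_lt ‖c / 4‖ hp1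
  refine ⟨k0 + 1, fun k hk => ?_⟩
  have hpn : ‖(p : ℚ_[p])‖ = (p : ℝ)⁻¹ := Padic.norm_p
  have hint : ‖c / 4 * (p : ℚ_[p]) ^ (2 * k - 1)‖ ≤ 1 := by
    rw [norm_mul, norm_pow, hpn]
    have h1 : (p : ℝ)⁻¹ ^ (2 * k - 1) ≤ (p : ℝ)⁻¹ ^ k0 :=
      pow_le_pow_of_le_one (by positivity) (inv_le_one_of_one_le₀ hp1.le) (by omega)
    calc ‖c / 4‖ * (p : ℝ)⁻¹ ^ (2 * k - 1) ≤ (p : ℝ) ^ k0 * (p : ℝ)⁻¹ ^ k0 := by
          gcongr
      _ = 1 := by
          rw [← mul_pow, mul_inv_cancel₀ (by positivity), one_pow]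
  obtain ⟨w, hw⟩ := exists_int hint
  obtain ⟨z, hz⟩ := Pool.Agent.Z864.LQ.hens p w
  have e : (z : ℚ_[p]) ^ 2 = 1 + c * ((p : ℚ_[p]) ^ k) ^ 2 := by
    have h1 : ((1 + 4 * p * w : ℤ_[p]) : ℚ_[p]) = ((z * z : ℤ_[p]) : ℚ_[p]) := by rw [hz]
    push_cast at h1
    have h4 : ((4 : ℤ_[p]) : ℚ_[p]) = 4 := rfl
    rw [hw, h4] at h1
    have h2 : (p : ℚ_[p]) * (p : ℚ_[p]) ^ (2 * k - 1) = ((p : ℚ_[p]) ^ k) ^ 2 := by
      rw [← pow_succ', ← pow_mul]
      congr 1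
      omega
    rw [← h2]
    linear_combination -h1
  refine ⟨z, ?_, e⟩
  intro h0
  have h1 : z = 0 := by
    apply PadicInt.ext
    rw [h0]
    rfl
  rw [h1] at hz
  have h2 : (1 : ℤ_[p]) = -(4 * w) * p := by linear_combination hz
  have h3 : IsUnit (p : ℤ_[p]) := IsUnit.of_mul_eq_one (-(4 * w)) (by rw [mul_comm]; exact h2.symm)
  rw [PadicInt.isUnit_iff, PadicInt.norm_p] at h3
  have h4 : (p : ℝ) = 1 := by
    have := congrArg (fun t : ℝ => t⁻¹) h3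
    simpa using this
  linarith

/-- points with `y ≠ 0` -/
theorem PC_of_Loc {A B z : ℤ} (hC : A ^ 2 - 4 * B ≠ 0) (p : ℕ) [hp : Fact p.Prime]
    (h : Loc ℚ_[p] A B z) : PC A B p z := by
  obtain ⟨X, Y, r, h1, h2, h3⟩ := h
  by_cases hY : Y = 0
  · rw [hY] at h2
    have h4 : X ^ 2 + (A : ℚ_[p]) * X + (B : ℚ_[p]) = 0 := by
      apply mul_left_cancel₀ h1
      linear_combination -h2
    have hC' : ((A ^ 2 - 4 * B : ℤ) : ℚ_[p]) ≠ 0 := by exact_mod_cast hC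
    have hA : 2 * X + (A : ℚ_[p]) ≠ 0 := by
      intro h5
      apply hC'
      push_cast
      linear_combination (2 * X + (A : ℚ_[p])) * h5 - 4 * h4
    obtain ⟨k1, hk1⟩ := near p X
    obtain ⟨k2, hk2⟩ := near p (2 * X + A)
    obtain ⟨v, hv0, hv⟩ := hk1 (max k1 k2) (le_max_left _ _)
    obtain ⟨w, hw0, hw⟩ := hk2 (max k1 k2) (le_max_right _ _)
    set η : ℚ_[p] := (p : ℚ_[p]) ^ (max k1 k2) with hη
    have hη0 : η ≠ 0 := pow_ne_zero _ (by exact_mod_cast hp.out.ne_zero)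
    refine ⟨X * w ^ 2, X * w * (2 * X + A) * η * v, ?_, ?_, z * r * w, ?_⟩
    · exact mul_ne_zero (mul_ne_zero (mul_ne_zero (mul_ne_zero h1 hw0) hA) hη0) hv0
    · have e1 : (X * w * (2 * X + A) * η * v) ^ 2 =
          X ^ 2 * w ^ 2 * (2 * X + A) ^ 2 * η ^ 2 * v ^ 2 := by ring
      rw [e1, hv]
      have e2 : w ^ 2 = 1 + (2 * X + A) * η ^ 2 := hw
      have e3 : (X * w ^ 2) ^ 3 + (A : ℚ_[p]) * (X * w ^ 2) ^ 2 + (B : ℚ_[p]) * (X * w ^ 2) =
          X * w ^ 2 * ((X * w ^ 2) ^ 2 + A * (X * w ^ 2) + B) := by ring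
      rw [e3]
      have e4 : (X * w ^ 2) ^ 2 + (A : ℚ_[p]) * (X * w ^ 2) + B =
          X * (2 * X + A) ^ 2 * η ^ 2 * (1 + X * η ^ 2) := by
        rw [e2]
        linear_combination h4
      rw [e4]
      ring
    · rw [h3]
      ring
  · refine ⟨X, Y, hY, h2, z * r, ?_⟩
    rw [h3]
    ring

theorem Loc_of_point {F : Type} [Field F] {A B z : ℤ} (hz : (z : F) ≠ 0) {x y : F} (hy : y ≠ 0)
    (h : y ^ 2 = x ^ 3 + (A : F) * x ^ 2 + (B : F) * x) (hs : IsSquare (x * z)) : Loc F A B z := by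
  obtain ⟨r, hr⟩ := hs
  refine ⟨x, y, r / z, ?_, h, ?_⟩
  · rintro rfl
    apply hy
    have : y ^ 2 = 0 := by rw [h]; ring
    exact pow_eq_zero_iff two_ne_zero |>.1 this
  · field_simp
    linear_combination hr

/-! ### sufficient conditions -/

section suf

variable {A B z : ℤ}

theorem Loc_of_sq (hB : B ≠ 0) (hC : A ^ 2 - 4 * B ≠ 0) (hz : z ≠ 0) (p : ℕ) [Fact p.Prime]
    (h : IsSquare (z : ℚ_[p]) ∨ IsSquare ((z : ℚ_[p]) * B)) : Loc ℚ_[p] A B z := by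
  rw [Loc_iff]
  refine (Pool.Agent.Z864.LQ.t_LQ (-2 * A) (A ^ 2 - 4 * B) z hC ?_ hz).1 p ?_
  · rw [dual_disc]
    exact mul_ne_zero (by norm_num) hB
  · rcases h with h | ⟨r, hr⟩
    · exact Or.inl h
    · right
      refine ⟨4 * r, ?_⟩
      push_cast
      linear_combination 16 * hr

theorem Loc_real (hB : B ≠ 0) (hC : A ^ 2 - 4 * B ≠ 0) (hz : 0 < z) : Loc ℝ A B z := by
  rw [Loc_iff]
  refine (Pool.Agent.Z864.LQ.t_LQ (-2 * A) (A ^ 2 - 4 * B) z hC ?_ hz.ne').2 hz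
  rw [dual_disc]
  exact mul_ne_zero (by norm_num) hB

/-- Hensel's lemma -/
theorem padic_sq {p : ℕ} [hp : Fact p.Prime] (hp2 : p ≠ 2) {n : ℤ} (hn : ¬ (p : ℤ) ∣ n)
    (h : IsSquare (n : ZMod p)) : IsSquare (n : ℚ_[p]) := by
  have h0 : (n : ZMod p) ≠ 0 := by
    rwa [Ne, ZMod.intCast_zmod_eq_zero_iff_dvd]
  obtain ⟨v, hv⟩ := Pool.Agent.TH841.LS.LOCA0.sq_of_char hp2 (u := (n : ℤ_[p])) (by
    rw [map_intCast]
    exact (quadraticChar_one_iff_isSquare h0).2 h)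
  refine ⟨v, ?_⟩
  have := congrArg (fun t : ℤ_[p] => (t : ℚ_[p])) hv
  push_cast at this
  exact this

/-- products of nonsquares -/
theorem sq_mul_of {p : ℕ} [Fact p.Prime] {a b : ZMod p} (ha : ¬ IsSquare a)
    (hb : ¬ IsSquare b) : IsSquare (a * b) := by
  have ha0 : a ≠ 0 := by
    rintro rfl
    exact ha ⟨0, by ring⟩
  have hb0 : b ≠ 0 := by
    rintro rfl
    exact hb ⟨0, by ring⟩
  rw [← quadraticChar_one_iff_isSquare (mul_ne_zero ha0 hb0), map_mul,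
    quadraticChar_neg_one_iff_not_isSquare.2 ha, quadraticChar_neg_one_iff_not_isSquare.2 hb]
  norm_num

/-- the primes of good reduction -/
theorem Loc_good {D : ℤ} (p : ℕ) [hp : Fact p.Prime] (h2 : p ≠ 2) (hB : ¬ (p : ℤ) ∣ B)
    (hC : ¬ (p : ℤ) ∣ A ^ 2 - 4 * B) (hD : ¬ (p : ℤ) ∣ D) (hz : ¬ (p : ℤ) ∣ z) :
    Loc ℚ_[p] (A * D) (B * D ^ 2) z := by
  have nz : ∀ n : ℤ, ¬ (p : ℤ) ∣ n → n ≠ 0 := by
    rintro n hn rfl
    exact hn (dvd_zero _)
  have nz' : ∀ n : ℤ, ¬ (p : ℤ) ∣ n → (n : ZMod p) ≠ 0 := by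
    intro n hn
    rwa [Ne, ZMod.intCast_zmod_eq_zero_iff_dvd]
  have hB0 : B * D ^ 2 ≠ 0 := mul_ne_zero (nz B hB) (pow_ne_zero 2 (nz D hD))
  have eC : (A * D) ^ 2 - 4 * (B * D ^ 2) = (A ^ 2 - 4 * B) * D ^ 2 := by ring
  have hC0 : (A * D) ^ 2 - 4 * (B * D ^ 2) ≠ 0 := by
    rw [eC]
    exact mul_ne_zero (nz _ hC) (pow_ne_zero 2 (nz D hD))
  have hzz := nz' z hz
  have hBz := nz' B hB
  have hCz := nz' _ hC
  have hDz := nz' D hD
  by_cases hs : IsSquare (z : ZMod p)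
  · exact Loc_of_sq hB0 hC0 (nz z hz) p (Or.inl (padic_sq h2 hz hs))
  · by_cases hBs : IsSquare (B : ZMod p)
    · rw [Loc_iff]
      refine Pool.Agent.Z894.LG.aux p _ _ z h2 ?_ ?_ (nz z hz)
        (quadraticChar_neg_one_iff_not_isSquare.2 hs)
      · rw [eC]
        push_cast at hCz ⊢
        exact mul_ne_zero hCz (pow_ne_zero 2 hDz)
      · have h16 : (4 : ZMod p) * D ≠ 0 := by
          have e : (4 : ZMod p) = 2 * 2 := by norm_num
          rw [e]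
          exact mul_ne_zero (mul_ne_zero (two0 hp.out h2) (two0 hp.out h2)) hDz
        have e : ((-2 * (A * D) : ℤ) : ZMod p) ^ 2 -
            4 * (((A * D) ^ 2 - 4 * (B * D ^ 2) : ℤ) : ZMod p) = (4 * D) ^ 2 * (B : ZMod p) := by
          push_cast
          ring
        rw [e, map_mul, quadraticChar_sq_one' h16, (quadraticChar_one_iff_isSquare hBz).2 hBs]
        norm_num
    · refine Loc_of_sq hB0 hC0 (nz z hz) p (Or.inr ?_)
      have h1 : IsSquare ((z * B : ℤ) : ZMod p) := by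
        push_cast
        exact sq_mul_of hs hBs
      have h3 : ¬ (p : ℤ) ∣ z * B := by
        rw [← ZMod.intCast_zmod_eq_zero_iff_dvd]
        push_cast
        exact mul_ne_zero hzz hBz
      obtain ⟨r, hr⟩ := padic_sq h2 h3 h1
      refine ⟨r * D, ?_⟩
      push_cast at hr ⊢
      linear_combination (D : ℚ_[p]) ^ 2 * hr

/-- the roots of `x² + A x + B` modulo an active prime are both squares or both not -/
theorem root_sq {p : ℕ} (h : Act A B p) (hB : B ≠ 0) {r : ZMod p}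
    (hr : r ^ 2 + (A : ZMod p) * r + (B : ZMod p) = 0) :
    IsSquare r ↔ ∃ y : ZMod p, y ^ 4 + (A : ZMod p) * y ^ 2 + (B : ZMod p) = 0 := by
  have : Fact p.Prime := ⟨h.1⟩
  constructor
  · rintro ⟨y, hy⟩
    refine ⟨y, ?_⟩
    rw [hy] at hr
    linear_combination hr
  · rintro ⟨y, hy⟩
    have h1 : (y ^ 2 - r) * (y ^ 2 + r + A) = 0 := by linear_combination hy - hr
    rcases mul_eq_zero.1 h1 with h2 | h2
    · exact ⟨y, by linear_combination -h2⟩
    · -- the product of the two roots is `B`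
      obtain ⟨b, hb⟩ := h.B_sq hB
      have hB0 := h.B0
      have e : r * y ^ 2 = B := by linear_combination r * h2 - hr
      have hy0 : y ≠ 0 := by
        rintro rfl
        apply hB0
        rw [← e]
        ring
      refine ⟨b / y, ?_⟩
      rw [div_mul_div_comm, eq_div_iff (mul_ne_zero hy0 hy0), ← hb, ← e]
      ring

/-- the class of the roots is the same for the dual curve -/
theorem root_dual {p : ℕ} (h : Act A B p) (hB : B ≠ 0) (hC : A ^ 2 - 4 * B ≠ 0) :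
    (∃ y : ZMod p, y ^ 4 + ((-2 * A : ℤ) : ZMod p) * y ^ 2 + ((A ^ 2 - 4 * B : ℤ) : ZMod p) = 0) ↔
      ∃ y : ZMod p, y ^ 4 + (A : ZMod p) * y ^ 2 + (B : ZMod p) = 0 := by
  have : Fact p.Prime := ⟨h.1⟩
  have h2 := h.two0
  obtain ⟨i, hi⟩ := h.neg_one
  obtain ⟨b, hb⟩ := h.B_sq hB
  obtain ⟨c, hc⟩ := h.C_sq hC
  have hb0 : b ≠ 0 := by
    rintro rfl
    exact h.B0 (by rw [hb]; ring)
  have h40 : (4 : ZMod p) ≠ 0 := by
    have e : (4 : ZMod p) = 2 * 2 := by norm_num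
    rw [e]
    exact mul_ne_zero h2 h2
  constructor
  · rintro ⟨y, hy⟩
    -- `y² = A ± 2 b`, a root `x = (c - A) / 2`
    push_cast at hy hc
    set x : ZMod p := (c - A) / 2 with hx
    have hx2 : 2 * x = c - A := by rw [hx]; field_simp
    have hroot : x ^ 2 + (A : ZMod p) * x + (B : ZMod p) = 0 := by
      apply mul_left_cancel₀ h40
      linear_combination (2 * x + c + A) * hx2 - hc
    rw [← root_sq h hB hroot]
    have hyb : (y ^ 2 - A - 2 * b) * (y ^ 2 - A + 2 * b) = 0 := by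
      linear_combination hy + 4 * hb
    have hx0 : x ≠ 0 := by
      intro h0
      apply h.B0
      rw [h0] at hroot
      linear_combination hroot
    have hy0 : y ≠ 0 := by
      rintro rfl
      apply h.C0
      push_cast
      linear_combination hy
    rcases mul_eq_zero.1 hyb with h3 | h3
    · refine ⟨i * (x - b) / y, ?_⟩
      rw [div_mul_div_comm, eq_div_iff (mul_ne_zero hy0 hy0)]
      linear_combination x * h3 + hroot - hb + (x - b) ^ 2 * hi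
    · refine ⟨i * (x + b) / y, ?_⟩
      rw [div_mul_div_comm, eq_div_iff (mul_ne_zero hy0 hy0)]
      linear_combination x * h3 + hroot - hb + (x + b) ^ 2 * hi
  · rintro ⟨y, hy⟩
    have hy0 : y ≠ 0 := by
      rintro rfl
      apply h.B0
      linear_combination hy
    -- `y²` is a root, `(y + b / y)² = - A + 2 b`
    refine ⟨i * (y - b / y), ?_⟩
    have e1 : (i * (y - b / y)) ^ 2 = A + 2 * b := by
      have e2 : (i * (y - b / y)) ^ 2 * y ^ 2 = (A + 2 * b) * y ^ 2 := by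
        have e3 : (i * (y - b / y)) ^ 2 * y ^ 2 = (i * i) * (y * y - b) ^ 2 := by
          field_simp
        rw [e3, ← hi]
        linear_combination -hy + hb
      exact mul_right_cancel₀ (pow_ne_zero 2 hy0) e2
    have e4 : (i * (y - b / y)) ^ 4 = (A + 2 * b) ^ 2 := by
      rw [← e1]; ring
    rw [e4, e1]
    push_cast
    linear_combination -4 * hb

/-- the active primes which divide `z` -/
theorem Loc_root {D z' D' : ℤ} (p : ℕ) [hp : Fact p.Prime] (h : Act A B p) (hB : B ≠ 0)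
    (hC : A ^ 2 - 4 * B ≠ 0) (hD : D = p * D') (hz : z = p * z') (hD' : ¬ (p : ℤ) ∣ D')
    (hz' : ¬ (p : ℤ) ∣ z')
    (hs : (∃ y : ZMod p, y ^ 4 + (A : ZMod p) * y ^ 2 + (B : ZMod p) = 0) ↔
      IsSquare ((D' * z' : ℤ) : ZMod p)) :
    Loc ℚ_[p] (A * D) (B * D ^ 2) z := by
  have h2 := h.two_ne
  -- a square root of the discriminant
  obtain ⟨c, hc⟩ : ∃ c : ℤ_[p], ((A ^ 2 - 4 * B : ℤ) : ℤ_[p]) = c * c := by
    obtain ⟨v, hv⟩ := Pool.Agent.TH841.LS.LOCA0.sq_of_char h2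
      (u := ((A ^ 2 - 4 * B : ℤ) : ℤ_[p])) (by
      rw [map_intCast]
      exact (quadraticChar_one_iff_isSquare h.C0).2 (h.C_sq hC))
    exact ⟨v, hv⟩
  -- the unit two
  have h2u : ‖((2 : ℤ) : ℤ_[p])‖ = 1 := by
    refine le_antisymm (PadicInt.norm_le_one _) (not_lt.1 fun h3 => ?_)
    rw [PadicInt.norm_intCast_lt_one_iff] at h3
    have h5 : p ∣ 2 := by exact_mod_cast h3
    exact h2 ((Nat.prime_dvd_prime_iff_eq hp.out Nat.prime_two).1 h5)
  obtain ⟨w, hw⟩ : ∃ w : ℤ_[p], (2 : ℤ_[p]) * w = 1 := by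
    have h3 : IsUnit ((2 : ℤ) : ℤ_[p]) := PadicInt.isUnit_iff.2 h2u
    obtain ⟨w, hw⟩ := h3.exists_right_inv
    exact ⟨w, by exact_mod_cast hw⟩
  obtain ⟨ρ, hρ⟩ : ∃ ρ : ℤ_[p], ρ = w * (c - A) := ⟨_, rfl⟩
  have hroot : ρ ^ 2 + (A : ℤ_[p]) * ρ + (B : ℤ_[p]) = 0 := by
    push_cast at hc
    have e : 4 * (ρ ^ 2 + (A : ℤ_[p]) * ρ + (B : ℤ_[p])) = 0 := by
      rw [hρ]
      linear_combination ((2 * w + 1) * (c - A) ^ 2 + 2 * A * (c - A)) * hw - hc
    have h4 : (4 : ℤ_[p]) ≠ 0 := by norm_num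
    exact (mul_eq_zero.1 e).resolve_left h4
  set r : ZMod p := PadicInt.toZMod ρ with hr
  have hrr : r ^ 2 + (A : ZMod p) * r + (B : ZMod p) = 0 := by
    have h3 := congrArg (PadicInt.toZMod (p := p)) hroot
    simpa using h3
  have hr0 : r ≠ 0 := by
    intro h0
    apply h.B0
    rw [h0] at hrr
    linear_combination hrr
  rw [← root_sq h hB hrr] at hs
  have nz' : ∀ n : ℤ, ¬ (p : ℤ) ∣ n → (n : ZMod p) ≠ 0 := by
    intro n hn
    rwa [Ne, ZMod.intCast_zmod_eq_zero_iff_dvd]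
  have hDz := nz' D' hD'
  have hzz := nz' z' hz'
  have hDz0 : ((D' * z' : ℤ) : ZMod p) ≠ 0 := by
    push_cast
    exact mul_ne_zero hDz hzz
  have hsq : IsSquare (r * ((D' * z' : ℤ) : ZMod p)) := by
    by_cases h3 : IsSquare r
    · exact h3.mul (hs.1 h3)
    · exact sq_mul_of h3 fun h4 => h3 (hs.2 h4)
  obtain ⟨t, ht⟩ := Pool.Agent.TH841.LS.LOCA0.sq_of_char h2
    (u := ρ * ((D' * z' : ℤ) : ℤ_[p])) (by
    rw [map_mul, map_intCast, ← hr]
    exact (quadraticChar_one_iff_isSquare (mul_ne_zero hr0 hDz0)).2 hsq)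
  have hp0 : (p : ℚ_[p]) ≠ 0 := by exact_mod_cast hp.out.ne_zero
  have hD0' : (D' : ℚ_[p]) ≠ 0 := by
    have : D' ≠ 0 := by rintro rfl; exact hD' (dvd_zero _)
    exact_mod_cast this
  have hz0' : (z' : ℚ_[p]) ≠ 0 := by
    have : z' ≠ 0 := by rintro rfl; exact hz' (dvd_zero _)
    exact_mod_cast this
  have hρ0 : (ρ : ℚ_[p]) ≠ 0 := by
    intro h0
    apply hr0
    have h1 : ρ = 0 := by
      apply PadicInt.ext
      rw [h0]
      rfl
    rw [hr, h1, map_zero]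
  have hroot' : (ρ : ℚ_[p]) ^ 2 + (A : ℚ_[p]) * ρ + (B : ℚ_[p]) = 0 := by
    have h3 := congrArg (fun t : ℤ_[p] => (t : ℚ_[p])) hroot
    push_cast at h3
    exact h3
  have ht' : (ρ : ℚ_[p]) * (D' * z') = t * t := by
    have h3 := congrArg (fun t : ℤ_[p] => (t : ℚ_[p])) ht
    push_cast at h3
    exact h3
  refine ⟨(p : ℚ_[p]) * D' * ρ, 0, t / z', mul_ne_zero (mul_ne_zero hp0 hD0') hρ0, ?_, ?_⟩
  · rw [hD]
    push_cast
    linear_combination (-((p : ℚ_[p]) * D') ^ 3 * ρ) * hroot'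
  · rw [hz]
    push_cast
    field_simp
    linear_combination ht'

end suf

end Q44.TI
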