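import Pool.Agent.H68.L.R_pool_sql_team_seeded_3997aac3.Q44.TI.Loc
import Pool.Agent.H68.L.R_seed8.Y703.CQ.Stm

/-!
# The isogeny Selmer groups of the twists
-/

set_option autoImplicit false

open scoped Classical

namespace Q44.TI

open Finset
open Pool.Agent.Y700 (PC)
open Pool.Agent.Y814.BSD14 Pool.Agent.Y809.BSD14
open Pool.Agent.Y703.CQ (nr)

/-- the product -/
def pd (S : Finset ℕ) : ℤ := ((∏ q ∈ S, q : ℕ) : ℤ)

/-- the primes of the set are active or passive -/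
def Cl (A B : ℤ) (S : Finset ℕ) : Prop := ∀ p ∈ S, Act A B p ∨ Pas A B p

/-- the active primes of the set -/
noncomputable def PA (A B : ℤ) (S : Finset ℕ) : Finset ℕ := S.filter (Act A B)

/-- the function on the diagonal -/
noncomputable def fd (A B : ℤ) (p : ℕ) : ZMod 2 :=
  if ∃ y : ZMod p, y ^ 4 + (A : ZMod p) * y ^ 2 + (B : ZMod p) = 0 then 0 else 1

/-- the kernel -/
def Ker (A B : ℤ) (S J : Finset ℕ) : Prop :=
  J ⊆ PA A B S ∧ (∀ i ∈ PA A B S \ J, ∑ j ∈ J, nr i j = 0) ∧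
    ∀ i ∈ J, fd A B i + ∑ q ∈ S \ J, nr i q = 0

/-- the Selmer group of the isogeny onto `y² = x³ + A x² + B x`, by squarefree integers -/
def SelS (A B : ℤ) : Set ℤ :=
  {z | Squarefree z ∧ (∀ (p : ℕ) [Fact p.Prime], Loc ℚ_[p] A B z) ∧ Loc ℝ A B z}

/-- the part of the Selmer group of the twist by `D` which is supported on `2 b (a² - 4 b)` -/
def Un (a b D : ℤ) : Set ℤ :=
  {u | Squarefree u ∧ (∀ p : ℕ, p.Prime → (p : ℤ) ∣ u → (p : ℤ) ∣ 2 * (b * (a ^ 2 - 4 * b))) ∧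
    (∀ (p : ℕ) [Fact p.Prime], (p : ℤ) ∣ 2 * (b * (a ^ 2 - 4 * b)) →
      Loc ℚ_[p] (a * D) (b * D ^ 2) u) ∧ Loc ℝ (a * D) (b * D ^ 2) u}

/-! ### products of primes -/

theorem pd_erase {S : Finset ℕ} {p : ℕ} (hp : p ∈ S) : pd S = p * pd (S.erase p) := by
  unfold pd
  rw [← Finset.mul_prod_erase S (fun q => q) hp]
  push_cast
  ring

theorem pd_sdiff {S J : Finset ℕ} (hJ : J ⊆ S) : pd S = pd J * pd (S \ J) := by
  unfold pd
  rw [← Finset.prod_sdiff hJ]
  push_cast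
  ring

theorem not_dvd_pd {p : ℕ} (hp : p.Prime) {S : Finset ℕ} (hS : ∀ l ∈ S, l.Prime) (hpS : p ∉ S) :
    ¬ (p : ℤ) ∣ pd S := by
  intro h
  have h1 : p ∣ ∏ q ∈ S, q := Int.natCast_dvd_natCast.1 h
  obtain ⟨q, hq, hpq⟩ := (Nat.Prime.prime hp).exists_mem_finset_dvd h1
  exact hpS (((Nat.prime_dvd_prime_iff_eq hp (hS q hq)).1 hpq) ▸ hq)

theorem dvd_pd_iff {p : ℕ} (hp : p.Prime) {S : Finset ℕ} (hS : ∀ l ∈ S, l.Prime) :
    (p : ℤ) ∣ pd S ↔ p ∈ S := by
  constructor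
  · intro h
    by_contra h1
    exact not_dvd_pd hp hS h1 h
  · intro h
    rw [pd_erase h]
    exact Dvd.intro _ rfl

theorem pd_pos {S : Finset ℕ} (hS : ∀ l ∈ S, l.Prime) : 0 < pd S := by
  unfold pd
  exact_mod_cast Finset.prod_pos fun q hq => (hS q hq).pos

theorem nz_of {p : ℕ} {n : ℤ} (h : ¬ (p : ℤ) ∣ n) : (n : ZMod p) ≠ 0 := by
  rwa [Ne, ZMod.intCast_zmod_eq_zero_iff_dvd]

theorem sqf_prod {J : Finset ℕ} (hJ : ∀ q ∈ J, q.Prime) : Squarefree (∏ q ∈ J, q) := by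
  induction J using Finset.induction_on with
  | empty => simp
  | insert p J hp ih =>
    rw [Finset.prod_insert hp]
    have h1 := ih fun q hq => hJ q (Finset.mem_insert_of_mem hq)
    have hpp := hJ p (Finset.mem_insert_self p J)
    refine (Nat.squarefree_mul ?_).2 ⟨hpp.squarefree, h1⟩
    rw [hpp.coprime_iff_not_dvd]
    intro h2
    exact not_dvd_pd hpp (fun q hq => hJ q (Finset.mem_insert_of_mem hq)) hp
      (Int.natCast_dvd_natCast.2 h2)

/-- the class of an element modulo squares -/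
noncomputable def ch {p : ℕ} (x : ZMod p) : ZMod 2 := if IsSquare x then 0 else 1

theorem nr_ch (p q : ℕ) : nr p q = ch (q : ZMod p) := rfl

theorem ch_zero {p : ℕ} {x : ZMod p} : ch x = 0 ↔ IsSquare x := by
  unfold ch
  by_cases h : IsSquare x
  · rw [if_pos h]
    exact ⟨fun _ => h, fun _ => rfl⟩
  · rw [if_neg h]
    exact ⟨fun h' => absurd h' (by decide), fun h' => absurd h' h⟩

theorem ch_mul {p : ℕ} [Fact p.Prime] {x y : ZMod p} (hx : x ≠ 0) (hy : y ≠ 0) :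
    ch (x * y) = ch x + ch y := by
  unfold ch
  by_cases h1 : IsSquare x
  · by_cases h2 : IsSquare y
    · rw [if_pos h1, if_pos h2, if_pos (h1.mul h2), add_zero]
    · have h3 : ¬ IsSquare (x * y) := by
        intro h3
        apply h2
        have := h3.div h1
        rwa [mul_div_cancel_left₀ _ hx] at this
      rw [if_pos h1, if_neg h2, if_neg h3, zero_add]
  · by_cases h2 : IsSquare y
    · have h3 : ¬ IsSquare (x * y) := by
        intro h3
        apply h1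
        have := h3.div h2
        rwa [mul_div_cancel_right₀ _ hy] at this
      rw [if_neg h1, if_pos h2, if_neg h3, add_zero]
    · rw [if_neg h1, if_neg h2, if_pos (sq_mul_of h1 h2)]
      decide

theorem ch_pd {p : ℕ} (hp : p.Prime) {J : Finset ℕ} (hJ : ∀ l ∈ J, l.Prime) (hpJ : p ∉ J) :
    ch ((pd J : ℤ) : ZMod p) = ∑ j ∈ J, nr p j := by
  have : Fact p.Prime := ⟨hp⟩
  induction J using Finset.induction_on with
  | empty =>
    unfold pd
    simp only [Finset.prod_empty, Nat.cast_one, Int.cast_one, Finset.sum_empty]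
    exact ch_zero.2 IsSquare.one
  | insert a J ha ih =>
    have i1 := ih (fun l hl => hJ l (Finset.mem_insert_of_mem hl))
      (fun h => hpJ (Finset.mem_insert_of_mem h))
    have e : pd (insert a J) = a * pd J := by
      unfold pd
      rw [Finset.prod_insert ha]
      push_cast
      ring
    have ha0 : (a : ZMod p) ≠ 0 := by
      rw [Ne, ZMod.natCast_eq_zero_iff]
      intro h
      have := (Nat.prime_dvd_prime_iff_eq hp (hJ a (Finset.mem_insert_self a J))).1 h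
      exact hpJ (this ▸ Finset.mem_insert_self a J)
    have hJ0 := nz_of (not_dvd_pd hp (fun l hl => hJ l (Finset.mem_insert_of_mem hl))
      (fun h => hpJ (Finset.mem_insert_of_mem h)))
    rw [e, Finset.sum_insert ha, ← i1]
    push_cast
    rw [ch_mul ha0 hJ0]
    rfl

/-- a nonzero square does not matter -/
theorem ch_sq {p : ℕ} [Fact p.Prime] {x s : ZMod p} (hs : IsSquare s) (hs0 : s ≠ 0) (hx : x ≠ 0) :
    ch (s * x) = ch x := by
  rw [ch_mul hs0 hx, ch_zero.2 hs, zero_add]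

theorem zmod2 {x y : ZMod 2} (h : x = 0 ↔ y = 0) : x + y = 0 := by
  revert x y
  decide

theorem zmod2' {x y : ZMod 2} (h : x + y = 0) : x = 0 ↔ y = 0 := by
  revert x y
  decide

theorem fd_zero {A B : ℤ} {p : ℕ} : fd A B p = 0 ↔
    ∃ y : ZMod p, y ^ 4 + (A : ZMod p) * y ^ 2 + (B : ZMod p) = 0 := by
  unfold fd
  split_ifs with h
  · exact ⟨fun _ => h, fun _ => rfl⟩
  · exact ⟨fun h' => absurd h' (by decide), fun h' => absurd h' h⟩

theorem padic_sq2 {n : ℤ} (hn : n % 8 = 1) : IsSquare (n : ℚ_[2]) := by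
  obtain ⟨k, hk⟩ : ∃ k, n = 1 + 8 * k := ⟨n / 8, by omega⟩
  obtain ⟨z, hz⟩ := Pool.Agent.Z864.LQ.hens 2 (k : ℤ_[2])
  refine ⟨z, ?_⟩
  have := congrArg (fun t : ℤ_[2] => (t : ℚ_[2])) hz
  have h4 : ((4 : ℤ_[2]) : ℚ_[2]) = 4 := rfl
  have h2 : ((2 : ℤ_[2]) : ℚ_[2]) = 2 := rfl
  push_cast at this
  rw [h4, h2] at this
  rw [← this, hk]
  push_cast
  ring

section

variable {A B : ℤ}

theorem Cl.prime {S : Finset ℕ} (h : Cl A B S) : ∀ p ∈ S, p.Prime := fun p hp => by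
  rcases h p hp with h | h
  · exact h.1
  · exact h.1

theorem mem_PA {S : Finset ℕ} {p : ℕ} : p ∈ PA A B S ↔ p ∈ S ∧ Act A B p := Finset.mem_filter

theorem PA_sub {S : Finset ℕ} : PA A B S ⊆ S := Finset.filter_subset _ _

/-- the product of active primes is a square at the bad places -/
theorem pd_bad {J : Finset ℕ} (hJ : ∀ j ∈ J, Act A B j) (p : ℕ) [hp : Fact p.Prime]
    (hd : (p : ℤ) ∣ 2 * (B * (A ^ 2 - 4 * B))) : IsSquare ((pd J : ℤ) : ℚ_[p]) := by
  have hJp : ∀ j ∈ J, j.Prime := fun j hj => (hJ j hj).1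
  by_cases h2 : p = 2
  · subst h2
    refine padic_sq2 ?_
    have h8 : (∏ q ∈ J, q) % 8 = 1 := by
      have : ∀ K : Finset ℕ, (∀ q ∈ K, q % 8 = 1) → (∏ q ∈ K, q) % 8 = 1 := by
        intro K
        induction K using Finset.induction_on with
        | empty => intro _; rfl
        | insert q K hq ih =>
          intro hK
          rw [Finset.prod_insert hq, Nat.mul_mod, ih (fun r hr => hK r (Finset.mem_insert_of_mem hr)),
            hK q (Finset.mem_insert_self q K)]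
      exact this J fun q hq => (hJ q hq).2.1
    unfold pd
    omega
  · have hd' : (p : ℤ) ∣ B * (A ^ 2 - 4 * B) := by
      rcases (Nat.prime_iff_prime_int.1 hp.out).dvd_or_dvd hd with h | h
      · exfalso
        have h5 : p ∣ 2 := by exact_mod_cast h
        exact h2 ((Nat.prime_dvd_prime_iff_eq hp.out Nat.prime_two).1 h5)
      · exact h
    have hpJ : p ∉ J := fun h => (hJ p h).2.2.1 hd'
    refine padic_sq h2 (not_dvd_pd hp.out hJp hpJ) ?_
    rw [← ch_zero, ch_pd hp.out hJp hpJ]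
    refine Finset.sum_eq_zero fun j hj => ?_
    rw [nr_ch, ch_zero]
    exact (hJ j hj).rec hp.out h2 hd'

theorem pd_real {J : Finset ℕ} (hJ : ∀ j ∈ J, j.Prime) : IsSquare ((pd J : ℤ) : ℝ) := by
  have h : (0 : ℝ) ≤ ((pd J : ℤ) : ℝ) := by exact_mod_cast (pd_pos hJ).le
  exact ⟨Real.sqrt _, (Real.mul_self_sqrt h).symm⟩

/-- the decomposition of `D` at a prime of `S` -/
theorem D_split {S : Finset ℕ} {D : ℤ} (hS : ∀ p ∈ S, p.Prime) (hD : D = pd S ∨ D = -pd S) {p : ℕ}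
    (hp : p ∈ S) : ∃ D' : ℤ, D = p * D' ∧ (D' = pd (S.erase p) ∨ D' = -pd (S.erase p)) ∧
      ¬ (p : ℤ) ∣ D' := by
  have h1 := not_dvd_pd (hS p hp) (S := S.erase p) (fun l hl => hS l (Finset.mem_of_mem_erase hl))
    (Finset.notMem_erase p S)
  rcases hD with rfl | rfl
  · exact ⟨pd (S.erase p), pd_erase hp, Or.inl rfl, h1⟩
  · refine ⟨-pd (S.erase p), ?_, Or.inr rfl, ?_⟩
    · rw [pd_erase hp]
      ring
    · rwa [dvd_neg]

theorem D_ne {S : Finset ℕ} {D : ℤ} (hS : ∀ p ∈ S, p.Prime) (hD : D = pd S ∨ D = -pd S) : D ≠ 0 := by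
  have := pd_pos hS
  rcases hD with rfl | rfl <;> omega

theorem D_dvd {S : Finset ℕ} {D : ℤ} (hD : D = pd S ∨ D = -pd S)
    {p : ℕ} : (p : ℤ) ∣ D ↔ (p : ℤ) ∣ pd S := by
  rcases hD with rfl | rfl
  · exact Iff.rfl
  · exact dvd_neg

/-- **necessary conditions** -/
theorem nec (hB : B ≠ 0) (hC : A ^ 2 - 4 * B ≠ 0) {S : Finset ℕ} (hS : Cl A B S) {D : ℤ}
    (hD : D = pd S ∨ D = -pd S) {z : ℤ} (hz : z ∈ SelS (A * D) (B * D ^ 2)) :
    ∃ u ∈ Un A B D, ∃ J, Ker A B S J ∧ z = u * pd J := by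
  obtain ⟨hsq, hloc, hreal⟩ := hz
  have hSp := hS.prime
  have hD0 := D_ne hSp hD
  have eC : (A * D) ^ 2 - 4 * (B * D ^ 2) = (A ^ 2 - 4 * B) * D ^ 2 := by ring
  have hC0 : (A * D) ^ 2 - 4 * (B * D ^ 2) ≠ 0 := by
    rw [eC]
    exact mul_ne_zero hC (pow_ne_zero 2 hD0)
  have hPC : ∀ (p : ℕ) [Fact p.Prime], PC (A * D) (B * D ^ 2) p z := fun p _ =>
    PC_of_Loc hC0 p (hloc p)
  -- the form of the condition at a prime of `S`
  have hform : ∀ p ∈ S, ∀ [Fact p.Prime], ∀ D' : ℤ, D = p * D' →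
      PC (p * (A * D')) (p ^ 2 * (B * D' ^ 2)) p z := by
    intro p hp _ D' hD'
    have h1 := hPC p
    rw [hD'] at h1
    have e1 : A * ((p : ℤ) * D') = p * (A * D') := by ring
    have e2 : B * ((p : ℤ) * D') ^ 2 = p ^ 2 * (B * D' ^ 2) := by ring
    rw [e1, e2] at h1
    exact h1
  -- the primes dividing `z`
  have hpr : ∀ q : ℕ, q.Prime → (q : ℤ) ∣ z →
      (q : ℤ) ∣ 2 * (B * (A ^ 2 - 4 * B)) ∨ q ∈ PA A B S := by
    intro q hq hqz
    by_contra hcon
    push Not at hcon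
    have : Fact q.Prime := ⟨hq⟩
    have hqP : Prime (q : ℤ) := Nat.prime_iff_prime_int.1 hq
    have hqB : ¬ (q : ℤ) ∣ B := fun h => hcon.1 ((h.mul_right _).mul_left _)
    by_cases hqS : q ∈ S
    · obtain ⟨D', h1, -, h2⟩ := D_split hSp hD hqS
      have hnB : ¬ (q : ℤ) ∣ B * D' ^ 2 := by
        intro h0
        rcases hqP.dvd_or_dvd h0 with h3 | h3
        · exact hqB h3
        · exact h2 (hqP.dvd_of_dvd_pow h3)
      obtain ⟨r, hr, -, -⟩ := root_of_PC hsq hqz hnB (hform q hqS D' h1)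
      have hDz := nz_of h2
      have hpas : Pas A B q := (hS q hqS).resolve_left fun h => hcon.2 (mem_PA.2 ⟨hqS, h⟩)
      apply hpas.2.2
      refine ⟨(2 * r + A * D') / D', ?_⟩
      rw [div_mul_div_comm, eq_div_iff (mul_ne_zero hDz hDz)]
      push_cast at hr ⊢
      linear_combination -4 * hr
    · refine not_dvd_of_PC hsq ?_ (hPC q) hqz
      intro h0
      rcases hqP.dvd_or_dvd h0 with h0 | h0
      · exact hqB h0
      · exact not_dvd_pd hq hSp hqS ((D_dvd hD).1 (hqP.dvd_of_dvd_pow h0))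
  -- the decomposition
  set J := (PA A B S).filter (fun p : ℕ => (p : ℤ) ∣ z) with hJdef
  have hJP : J ⊆ PA A B S := Finset.filter_subset _ _
  have hJm : ∀ p, p ∈ J ↔ p ∈ PA A B S ∧ (p : ℤ) ∣ z := fun p => Finset.mem_filter
  have hJa : ∀ q ∈ J, Act A B q := fun q hq => (mem_PA.1 (hJP hq)).2
  have hJp : ∀ q ∈ J, q.Prime := fun q hq => (hJa q hq).1
  have hdvd : pd J ∣ z := by
    unfold pd
    rw [Int.natCast_dvd]
    refine Finset.prod_primes_dvd _ (fun q hq => (hJp q hq).prime) fun q hq => ?_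
    exact Int.natCast_dvd.1 ((hJm q).1 hq).2
  obtain ⟨u, hu'⟩ := hdvd
  have hu : z = u * pd J := by rw [hu', mul_comm]
  have hu0 : u ≠ 0 := by
    rintro rfl
    rw [zero_mul] at hu
    exact hsq.ne_zero hu
  have huq : ∀ q : ℕ, q.Prime → (q : ℤ) ∣ u → (q : ℤ) ∣ 2 * (B * (A ^ 2 - 4 * B)) := by
    intro q hq hqu
    have hqz : (q : ℤ) ∣ z := by
      rw [hu]
      exact hqu.mul_right _
    rcases hpr q hq hqz with h1 | h1
    · exact h1
    · exfalso
      have hqJ : q ∈ J := (hJm q).2 ⟨h1, hqz⟩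
      have h2 : z = q * (pd (J.erase q) * u) := by
        rw [hu, pd_erase hqJ]
        ring
      exact not_dvd_of_sqf hq hsq h2 (hqu.mul_left _)
  have huS : ∀ p, Act A B p → IsSquare (u : ZMod p) ∧ (u : ZMod p) ≠ 0 := fun p hp =>
    hp.int_sq hu0 huq
  refine ⟨u, ⟨hsq.squarefree_of_dvd (Dvd.intro _ hu.symm), huq, fun p hp hd => ?_, ?_⟩, J,
    ⟨hJP, ?_, ?_⟩, hu⟩
  · have h1 := hloc p
    rw [hu] at h1
    refine (Loc_mul_sq (pd_bad hJa p hd) ?_).1 h1
    exact_mod_cast (pd_pos hJp).ne'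
  · rw [hu] at hreal
    refine (Loc_mul_sq (pd_real hJp) ?_).1 hreal
    exact_mod_cast (pd_pos hJp).ne'
  · intro p hp
    rw [Finset.mem_sdiff] at hp
    obtain ⟨hpS, hact⟩ := mem_PA.1 hp.1
    have f : Fact p.Prime := ⟨hact.1⟩
    have hpz : ¬ (p : ℤ) ∣ z := fun h0 => hp.2 ((hJm p).2 ⟨hp.1, h0⟩)
    obtain ⟨D', h1, -, h2⟩ := D_split hSp hD hpS
    have h3 : PC (A * (p * D')) (B * (p * D') ^ 2) p z := by
      rw [← h1]
      exact hPC p
    have h4 := sq_of_PC hpz h2 hact.nB (hact.B_sq hB) h3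
    obtain ⟨k1, k2⟩ := huS p hact
    have hJ0 := nz_of (not_dvd_pd hact.1 hJp hp.2)
    rw [← ch_pd hact.1 hJp hp.2, ← ch_sq k1 k2 hJ0, ch_zero]
    rw [hu] at h4
    push_cast at h4
    exact h4
  · intro p hp
    have hact := hJa p hp
    have hpS := PA_sub (hJP hp)
    have hpp := hact.1
    have f : Fact p.Prime := ⟨hpp⟩
    obtain ⟨D', h1, h1', h2⟩ := D_split hSp hD hpS
    have hDz := nz_of h2
    have hnB : ¬ (p : ℤ) ∣ B * D' ^ 2 := by
      intro h0
      rcases (Nat.prime_iff_prime_int.1 hpp).dvd_or_dvd h0 with h3 | h3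
      · exact hact.nB h3
      · exact h2 ((Nat.prime_iff_prime_int.1 hpp).dvd_of_dvd_pow h3)
    obtain ⟨z', hz'⟩ := ((hJm p).1 hp).2
    obtain ⟨r, hr, hr0, hrz⟩ := root_of_PC hsq ⟨z', hz'⟩ hnB (hform p hpS D' h1)
    have hrz' := hrz z' hz'
    have hz'0 := nz_of (not_dvd_of_sqf hpp hsq hz')
    -- the root of the polynomial
    have hρ : (r / D') ^ 2 + (A : ZMod p) * (r / D') + (B : ZMod p) = 0 := by
      push_cast at hr
      field_simp
      linear_combination hr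
    have hfd := root_sq hact hB hρ
    rw [← fd_zero, ← ch_zero] at hfd
    -- the decomposition of `D' z'`
    have e1 : z' = u * pd (J.erase p) := by
      have hp0 : (p : ℤ) ≠ 0 := by exact_mod_cast hpp.ne_zero
      apply mul_left_cancel₀ hp0
      rw [← hz', hu, pd_erase hp]
      ring
    have e2 : pd (S.erase p) = pd (J.erase p) * pd (S \ J) := by
      have hp0 : (p : ℤ) ≠ 0 := by exact_mod_cast hpp.ne_zero
      apply mul_left_cancel₀ hp0
      rw [← pd_erase hpS, pd_sdiff (hJP.trans PA_sub), pd_erase hp]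
      ring
    have hJe : ((pd (J.erase p) : ℤ) : ZMod p) ≠ 0 := nz_of (not_dvd_pd hpp
      (fun l hl => hJp l (Finset.mem_of_mem_erase hl)) (Finset.notMem_erase p J))
    have hpSJ : p ∉ S \ J := fun h => (Finset.mem_sdiff.1 h).2 hp
    have hSJp : ∀ l ∈ S \ J, l.Prime := fun l hl => hSp l (Finset.mem_sdiff.1 hl).1
    have hSJ0 := nz_of (not_dvd_pd hpp hSJp hpSJ)
    obtain ⟨k1, k2⟩ := huS p hact
    obtain ⟨v, hv⟩ := hact.neg_one
    have hch : ch (((D' * z' : ℤ)) : ZMod p) = ∑ q ∈ S \ J, nr p q := by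
      rw [← ch_pd hpp hSJp hpSJ]
      have e3 : ∃ s : ZMod p, IsSquare s ∧ s ≠ 0 ∧
          ((D' * z' : ℤ) : ZMod p) = s * ((pd (S \ J) : ℤ) : ZMod p) := by
        rcases h1' with h | h
        · refine ⟨(pd (J.erase p) : ZMod p) ^ 2 * u, (IsSquare.sq _).mul k1,
            mul_ne_zero (pow_ne_zero 2 hJe) k2, ?_⟩
          rw [h, e1, e2]
          push_cast
          ring
        · refine ⟨-1 * ((pd (J.erase p) : ZMod p) ^ 2 * u), (hact.neg_one).mul
            ((IsSquare.sq _).mul k1), mul_ne_zero (neg_ne_zero.2 one_ne_zero)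
              (mul_ne_zero (pow_ne_zero 2 hJe) k2), ?_⟩
          rw [h, e1, e2]
          push_cast
          ring
      obtain ⟨s, s1, s2, s3⟩ := e3
      rw [s3, ch_sq s1 s2 hSJ0]
    have hDz'0 : ((D' * z' : ℤ) : ZMod p) ≠ 0 := by
      push_cast
      exact mul_ne_zero hDz hz'0
    -- the class of `r`
    have e4 : r * (z' : ZMod p) = (r / D') * ((D' * z' : ℤ) : ZMod p) := by
      push_cast
      field_simp
    have hq0 : r / (D' : ZMod p) ≠ 0 := div_ne_zero hr0 hDz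
    rw [e4, ← ch_zero, ch_mul hq0 hDz'0, hch] at hrz'
    refine zmod2 ?_
    rw [← zmod2' hrz']
    exact hfd.symm

end

end Q44.TI
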