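import Pool.Agent.H68.L.R_pool_sql_team_seeded_3997aac3.Q44.TI.Sel

/-!
# The isogeny Selmer groups of the twists: sufficient conditions and the order
-/

set_option autoImplicit false

open scoped Classical

namespace Q44.TI

open Finset
open Pool.Agent.Y814.BSD14 Pool.Agent.Y809.BSD14
open Pool.Agent.Y703.CQ (nr)

variable {A B : ℤ}

/-- **sufficient conditions** -/
theorem suf (hB : B ≠ 0) (hC : A ^ 2 - 4 * B ≠ 0) {S : Finset ℕ} (hS : Cl A B S) {D : ℤ}
    (hD : D = pd S ∨ D = -pd S) {u : ℤ} (hu : u ∈ Un A B D) {J : Finset ℕ} (hJ : Ker A B S J) :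
    u * pd J ∈ SelS (A * D) (B * D ^ 2) := by
  obtain ⟨hsq, huq, hul, hur⟩ := hu
  obtain ⟨hJP, hJ1, hJ2⟩ := hJ
  have hSp := hS.prime
  have hD0 := D_ne hSp hD
  have eC : (A * D) ^ 2 - 4 * (B * D ^ 2) = (A ^ 2 - 4 * B) * D ^ 2 := by ring
  have hC0 : (A * D) ^ 2 - 4 * (B * D ^ 2) ≠ 0 := by
    rw [eC]
    exact mul_ne_zero hC (pow_ne_zero 2 hD0)
  have hB0 : B * D ^ 2 ≠ 0 := mul_ne_zero hB (pow_ne_zero 2 hD0)
  have hJa : ∀ q ∈ J, Act A B q := fun q hq => (mem_PA.1 (hJP hq)).2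
  have hJp : ∀ q ∈ J, q.Prime := fun q hq => (hJa q hq).1
  have hu0 : u ≠ 0 := hsq.ne_zero
  have huS : ∀ p, Act A B p → IsSquare (u : ZMod p) ∧ (u : ZMod p) ≠ 0 := fun p hp =>
    hp.int_sq hu0 huq
  have hpd0 : pd J ≠ 0 := (pd_pos hJp).ne'
  refine ⟨?_, fun p hp => ?_, ?_⟩
  · -- squarefree
    rw [← Int.squarefree_natAbs, Int.natAbs_mul]
    have e : (pd J).natAbs = ∏ q ∈ J, q := by unfold pd; rw [Int.natAbs_natCast]
    rw [e]
    refine (Nat.squarefree_mul ?_).2 ⟨Int.squarefree_natAbs.2 hsq, sqf_prod hJp⟩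
    refine Nat.Coprime.prod_right fun q hq => ?_
    rw [Nat.coprime_comm, (hJp q hq).coprime_iff_not_dvd]
    intro h
    have h1 := huq q (hJp q hq) (Int.natCast_dvd.2 h)
    rcases (Nat.prime_iff_prime_int.1 (hJp q hq)).dvd_or_dvd h1 with h2 | h2
    · have h5 : q ∣ 2 := by exact_mod_cast h2
      exact (hJa q hq).two_ne ((Nat.prime_dvd_prime_iff_eq (hJp q hq) Nat.prime_two).1 h5)
    · exact (hJa q hq).2.2.1 h2
  · by_cases hbad : (p : ℤ) ∣ 2 * (B * (A ^ 2 - 4 * B))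
    · refine (Loc_mul_sq (pd_bad hJa p hbad) ?_).2 (hul p hbad)
      exact_mod_cast hpd0
    have hpp := hp.out
    have hpP := Nat.prime_iff_prime_int.1 hpp
    have hp2 : p ≠ 2 := by
      rintro rfl
      exact hbad (Dvd.intro _ rfl)
    have hpB : ¬ (p : ℤ) ∣ B := fun h => hbad ((h.mul_right _).mul_left _)
    have hpC : ¬ (p : ℤ) ∣ A ^ 2 - 4 * B := fun h => hbad ((h.mul_left _).mul_left _)
    have hpu : ¬ (p : ℤ) ∣ u := fun h => hbad (huq p hpp h)
    by_cases hpJ : p ∈ J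
    · have hact := hJa p hpJ
      have hpS := PA_sub (hJP hpJ)
      obtain ⟨D', h1, h1', h2⟩ := D_split hSp hD hpS
      have hJe' : ¬ (p : ℤ) ∣ pd (J.erase p) := not_dvd_pd hpp
        (fun l hl => hJp l (Finset.mem_of_mem_erase hl)) (Finset.notMem_erase p J)
      have hpSJ : p ∉ S \ J := fun h => (Finset.mem_sdiff.1 h).2 hpJ
      have hSJp : ∀ l ∈ S \ J, l.Prime := fun l hl => hSp l (Finset.mem_sdiff.1 hl).1
      have hSJ0 := nz_of (not_dvd_pd hpp hSJp hpSJ)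
      obtain ⟨k1, k2⟩ := huS p hact
      refine Loc_root (z' := u * pd (J.erase p)) (D' := D') p hact hB hC h1 ?_ h2 ?_ ?_
      · rw [pd_erase hpJ]
        ring
      · intro h
        rcases hpP.dvd_or_dvd h with h | h
        · exact hpu h
        · exact hJe' h
      · rw [← fd_zero, ← ch_zero]
        have e2 : pd (S.erase p) = pd (J.erase p) * pd (S \ J) := by
          have hp0 : (p : ℤ) ≠ 0 := by exact_mod_cast hpp.ne_zero
          apply mul_left_cancel₀ hp0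
          rw [← pd_erase hpS, pd_sdiff (hJP.trans PA_sub), pd_erase hpJ]
          ring
        have hJe := nz_of hJe'
        have hch : ch (((D' * (u * pd (J.erase p)) : ℤ)) : ZMod p) = ∑ q ∈ S \ J, nr p q := by
          rw [← ch_pd hpp hSJp hpSJ]
          have e3 : ∃ s : ZMod p, IsSquare s ∧ s ≠ 0 ∧
              ((D' * (u * pd (J.erase p)) : ℤ) : ZMod p) = s * ((pd (S \ J) : ℤ) : ZMod p) := by
            rcases h1' with h | h
            · refine ⟨(pd (J.erase p) : ZMod p) ^ 2 * u, (IsSquare.sq _).mul k1,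
                mul_ne_zero (pow_ne_zero 2 hJe) k2, ?_⟩
              rw [h, e2]
              push_cast
              ring
            · refine ⟨-1 * ((pd (J.erase p) : ZMod p) ^ 2 * u), (hact.neg_one).mul
                ((IsSquare.sq _).mul k1), mul_ne_zero (neg_ne_zero.2 one_ne_zero)
                  (mul_ne_zero (pow_ne_zero 2 hJe) k2), ?_⟩
              rw [h, e2]
              push_cast
              ring
          obtain ⟨s, s1, s2, s3⟩ := e3
          rw [s3, ch_sq s1 s2 hSJ0]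
        rw [hch]
        exact zmod2' (hJ2 p hpJ)
    · have hpz : ¬ (p : ℤ) ∣ u * pd J := by
        intro h
        rcases hpP.dvd_or_dvd h with h | h
        · exact hpu h
        · exact not_dvd_pd hpp hJp hpJ h
      have hz0 : u * pd J ≠ 0 := mul_ne_zero hu0 hpd0
      by_cases hpS : p ∈ S
      · rcases hS p hpS with hact | hpas
        · refine Loc_of_sq hB0 hC0 hz0 p (Or.inl (padic_sq hp2 hpz ?_))
          obtain ⟨k1, k2⟩ := huS p hact
          have hJ0 := nz_of (not_dvd_pd hpp hJp hpJ)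
          push_cast
          rw [← ch_zero, ch_sq k1 k2 hJ0, ch_pd hpp hJp hpJ]
          exact hJ1 p (Finset.mem_sdiff.2 ⟨mem_PA.2 ⟨hpS, hact⟩, hpJ⟩)
        · by_cases hs : IsSquare ((u * pd J : ℤ) : ZMod p)
          · exact Loc_of_sq hB0 hC0 hz0 p (Or.inl (padic_sq hp2 hpz hs))
          · refine Loc_of_sq hB0 hC0 hz0 p (Or.inr ?_)
            have h1 : IsSquare (((u * pd J) * B : ℤ) : ZMod p) := by
              rw [Int.cast_mul]
              exact sq_mul_of hs hpas.2.1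
            have h3 : ¬ (p : ℤ) ∣ (u * pd J) * B := by
              intro h
              rcases hpP.dvd_or_dvd h with h | h
              · exact hpz h
              · exact hpB h
            obtain ⟨r, hr⟩ := padic_sq hp2 h3 h1
            refine ⟨r * D, ?_⟩
            push_cast at hr ⊢
            linear_combination (D : ℚ_[p]) ^ 2 * hr
      · refine Loc_good p hp2 hpB hpC ?_ hpz
        rw [D_dvd hD]
        exact not_dvd_pd hpp hSp hpS
  · refine (Loc_mul_sq (pd_real hJp) ?_).2 hur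
    exact_mod_cast hpd0

/-- the set of the kernel sets -/
noncomputable def KS (A B : ℤ) (S : Finset ℕ) : Finset (Finset ℕ) :=
  (PA A B S).powerset.filter fun J => Ker A B S J

theorem mem_KS {S J : Finset ℕ} : J ∈ KS A B S ↔ Ker A B S J := by
  unfold KS
  rw [Finset.mem_filter, Finset.mem_powerset]
  exact ⟨fun h => h.2, fun h => ⟨h.1, h⟩⟩

/-- the squarefree integers supported on a finite set of primes -/
theorem fin_sqf (T : Finset ℕ) : {u : ℤ | Squarefree u ∧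
    ∀ p : ℕ, p.Prime → (p : ℤ) ∣ u → p ∈ T}.Finite ∧
    {u : ℤ | Squarefree u ∧ ∀ p : ℕ, p.Prime → (p : ℤ) ∣ u → p ∈ T}.ncard ≤ 2 ^ (T.card + 1) := by
  have hsub : {u : ℤ | Squarefree u ∧ ∀ p : ℕ, p.Prime → (p : ℤ) ∣ u → p ∈ T} ⊆
      ((T.powerset.image pd ∪ T.powerset.image fun J => -pd J : Finset ℤ) : Set ℤ) := by
    rintro u ⟨h1, h2⟩
    have hn : Squarefree u.natAbs := Int.squarefree_natAbs.2 h1
    have hs : u.natAbs.primeFactors ⊆ T := fun p hp =>
      h2 p (Nat.prime_of_mem_primeFactors hp) (Int.natCast_dvd.2 (Nat.dvd_of_mem_primeFactors hp))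
    have he : pd u.natAbs.primeFactors = (u.natAbs : ℤ) := by
      unfold pd
      rw [Nat.prod_primeFactors_of_squarefree hn]
    rw [Finset.mem_coe, Finset.mem_union, Finset.mem_image, Finset.mem_image]
    rcases Int.natAbs_eq u with h | h
    · left
      exact ⟨_, Finset.mem_powerset.2 hs, by rw [he]; exact h.symm⟩
    · right
      exact ⟨_, Finset.mem_powerset.2 hs, by rw [he]; exact h.symm⟩
  refine ⟨(Finset.finite_toSet _).subset hsub, ?_⟩
  refine (Set.ncard_le_ncard hsub (Finset.finite_toSet _)).trans ?_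
  rw [Set.ncard_coe_finset]
  refine (Finset.card_union_le _ _).trans ?_
  have h1 : (T.powerset.image pd).card ≤ 2 ^ T.card := Finset.card_image_le.trans
    (Finset.card_powerset T).le
  have h2 : (T.powerset.image fun J => -pd J).card ≤ 2 ^ T.card := Finset.card_image_le.trans
    (Finset.card_powerset T).le
  rw [pow_succ]
  omega

/-- the bad primes -/
noncomputable def bad (A B : ℤ) : Finset ℕ := (2 * (B * (A ^ 2 - 4 * B))).natAbs.primeFactors

theorem mem_bad (hB : B ≠ 0) (hC : A ^ 2 - 4 * B ≠ 0) {p : ℕ} :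
    p ∈ bad A B ↔ p.Prime ∧ (p : ℤ) ∣ 2 * (B * (A ^ 2 - 4 * B)) := by
  unfold bad
  rw [Nat.mem_primeFactors]
  constructor
  · rintro ⟨h1, h2, -⟩
    exact ⟨h1, Int.natCast_dvd.2 h2⟩
  · rintro ⟨h1, h2⟩
    exact ⟨h1, Int.natCast_dvd.1 h2, Int.natAbs_ne_zero.2
      (mul_ne_zero two_ne_zero (mul_ne_zero hB hC))⟩

theorem Un_fin (hB : B ≠ 0) (hC : A ^ 2 - 4 * B ≠ 0) (D : ℤ) :
    (Un A B D).Finite ∧ (Un A B D).ncard ≤ 2 ^ ((bad A B).card + 1) := by
  obtain ⟨h1, h2⟩ := fin_sqf (bad A B)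
  have hsub : Un A B D ⊆ {u : ℤ | Squarefree u ∧ ∀ p : ℕ, p.Prime → (p : ℤ) ∣ u → p ∈ bad A B} := by
    rintro u ⟨k1, k2, -⟩
    exact ⟨k1, fun p hp hd => (mem_bad hB hC).2 ⟨hp, k2 p hp hd⟩⟩
  exact ⟨h1.subset hsub, (Set.ncard_le_ncard hsub h1).trans h2⟩

theorem one_Un (hB : B ≠ 0) (hC : A ^ 2 - 4 * B ≠ 0) {D : ℤ} (hD : D ≠ 0) : (1 : ℤ) ∈ Un A B D := by
  have hB0 : B * D ^ 2 ≠ 0 := mul_ne_zero hB (pow_ne_zero 2 hD)
  have hC0 : (A * D) ^ 2 - 4 * (B * D ^ 2) ≠ 0 := by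
    have eC : (A * D) ^ 2 - 4 * (B * D ^ 2) = (A ^ 2 - 4 * B) * D ^ 2 := by ring
    rw [eC]
    exact mul_ne_zero hC (pow_ne_zero 2 hD)
  refine ⟨squarefree_one, fun p hp hd => ?_, fun p hp _ => ?_, Loc_real hB0 hC0 one_pos⟩
  · exfalso
    have h1 : p ∣ 1 := by exact_mod_cast hd
    exact hp.one_lt.ne' (Nat.dvd_one.1 h1)
  · refine Loc_of_sq hB0 hC0 one_ne_zero p (Or.inl ?_)
    rw [Int.cast_one]
    exact IsSquare.one

/-- **the order of the Selmer group** -/
theorem card_Sel (hB : B ≠ 0) (hC : A ^ 2 - 4 * B ≠ 0) {S : Finset ℕ} (hS : Cl A B S) {D : ℤ}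
    (hD : D = pd S ∨ D = -pd S) : (SelS (A * D) (B * D ^ 2)).Finite ∧
    (SelS (A * D) (B * D ^ 2)).ncard = (Un A B D).ncard * (KS A B S).card := by
  obtain ⟨hf, -⟩ := Un_fin hB hC D
  have e : SelS (A * D) (B * D ^ 2) =
      (fun x : ℤ × Finset ℕ => x.1 * pd x.2) '' ((Un A B D) ×ˢ ((KS A B S : Finset _) : Set _)) := by
    ext z
    rw [Set.mem_image]
    constructor
    · intro hz
      obtain ⟨u, hu, J, hJ, h⟩ := nec hB hC hS hD hz
      exact ⟨(u, J), ⟨hu, Finset.mem_coe.2 (mem_KS.2 hJ)⟩, h.symm⟩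
    · rintro ⟨⟨u, J⟩, ⟨hu, hJ⟩, rfl⟩
      exact suf hB hC hS hD hu (mem_KS.1 (Finset.mem_coe.1 hJ))
  have hfin : ((Un A B D) ×ˢ ((KS A B S : Finset _) : Set (Finset ℕ))).Finite :=
    hf.prod (Finset.finite_toSet _)
  rw [e]
  refine ⟨hfin.image _, ?_⟩
  rw [Set.ncard_image_of_injOn, Set.ncard_prod, Set.ncard_coe_finset]
  rintro ⟨u, J⟩ ⟨hu, hJ⟩ ⟨u', J'⟩ ⟨hu', hJ'⟩ h
  simp only at h hu hJ hu' hJ'
  rw [Finset.mem_coe, mem_KS] at hJ hJ'
  have key : ∀ (v : ℤ) (K : Finset ℕ), v ∈ Un A B D → Ker A B S K → ∀ p, Act A B p →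
      ((p : ℤ) ∣ v * pd K ↔ p ∈ K) := by
    intro v K hv hK p hp
    have hKp : ∀ l ∈ K, l.Prime := fun l hl => (mem_PA.1 (hK.1 hl)).2.1
    constructor
    · intro h1
      rcases (Nat.prime_iff_prime_int.1 hp.1).dvd_or_dvd h1 with h2 | h2
      · exfalso
        have h3 := hv.2.1 p hp.1 h2
        rcases (Nat.prime_iff_prime_int.1 hp.1).dvd_or_dvd h3 with h4 | h4
        · have h5 : p ∣ 2 := by exact_mod_cast h4
          exact hp.two_ne ((Nat.prime_dvd_prime_iff_eq hp.1 Nat.prime_two).1 h5)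
        · exact hp.2.2.1 h4
      · exact (dvd_pd_iff hp.1 hKp).1 h2
    · intro h1
      exact ((dvd_pd_iff hp.1 hKp).2 h1).mul_left _
  have hJJ : J = J' := by
    ext p
    constructor
    · intro hp
      have hact := (mem_PA.1 (hJ.1 hp)).2
      rw [← key u' J' hu' hJ' p hact, ← h]
      exact (key u J hu hJ p hact).2 hp
    · intro hp
      have hact := (mem_PA.1 (hJ'.1 hp)).2
      rw [← key u J hu hJ p hact, h]
      exact (key u' J' hu' hJ' p hact).2 hp
  subst hJJ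
  have h0 : pd J ≠ 0 := (pd_pos fun l hl => (mem_PA.1 (hJ.1 hl)).2.1).ne'
  rw [mul_right_cancel₀ h0 h]

end Q44.TI
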